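import Pool.Agent.Q171.PT.AC
import Pool.Agent.Helper41.BS.ExistBM

/-!
# A continuous martingale which is a non-regular semimartingale in another filtration

Negative answer to the question of problem `MP_e3daee_pr`.  Let `B` be a Brownian motion with
(completed) filtration `G`, `S` its running maximum and `R = 2 S - B`, with completed filtration
`F`.  Then `M = R² - 3 t` is an `F`-martingale, and its decomposition in `G` is `M = N + A` with
`A = 2 S² - 2 t` and `[N, N] = ∫ 4 R² dt`; almost surely `A` is not absolutely continuous with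
respect to `[N, N]`.
-/

set_option autoImplicit false

namespace Pool.Agent.Results.MP_e3daee_pr.PitmanNotRegular

open MeasureTheory ProbabilityTheory Set Filter Topology
open Pool.Agent.TH970 Pool.Agent.Q171.PT
open scoped ENNReal NNReal

/-- there is a complete probability space with a Brownian motion with continuous paths -/
lemma exists_cbm : ∃ (Ω : Type) (mΩ : MeasurableSpace Ω) (P : Measure Ω) (X : ℝ≥0 → Ω → ℝ),
    IsProbabilityMeasure P ∧ P.IsComplete ∧ CBM P X := by
  obtain ⟨Ω, mΩ, P, hP, hc, B, hB⟩ := Pool.Agent.Helper41.BS.exists_bm2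
  have hX := hB.bm 0
  have hm := hB.meas 0
  set X := B 0 with hXdef
  have h1 : ∀ᵐ ω ∂P, Continuous (path X ω) ∧ X 0 ω = 0 := by
    filter_upwards [hX.cont, hX.toIsPreBrownianReal.eval_zero_ae_eq_zero] with ω h1 h2
    exact ⟨h1, h2⟩
  obtain ⟨N, hN1, hN2, hN3⟩ := exists_measurable_superset_of_null (ae_iff.mp h1)
  classical
  set X' : ℝ≥0 → Ω → ℝ := fun t ω => if ω ∈ N then 0 else X t ω with hX'
  have hgood : ∀ ω, ω ∉ N → Continuous (path X ω) ∧ X 0 ω = 0 := by
    intro ω hω
    by_contra hcon
    exact hω (hN1 hcon)
  have hae : ∀ᵐ ω ∂P, ω ∉ N := by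
    rw [ae_iff]
    simpa using hN3
  refine ⟨Ω, mΩ, P, X', hP, hc, fun t => ?_, fun ω => ?_, fun ω => ?_, ?_⟩
  · exact Measurable.ite hN2 measurable_const (hm t)
  · by_cases hω : ω ∈ N
    · have : path X' ω = fun _ => 0 := by
        ext s
        simp [path, hX', hω]
      rw [this]
      exact continuous_const
    · have : path X' ω = path X ω := by
        ext s
        simp [path, hX', hω]
      rw [this]
      exact (hgood ω hω).1
  · by_cases hω : ω ∈ N
    · simp [hX', hω]
    · simp only [hX', hω, if_false]
      exact (hgood ω hω).2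
  · refine hX.toIsPreBrownianReal.congr fun t => ?_
    filter_upwards [hae] with ω hω
    simp [hX', hω]

/-- There are a complete probability space, two filtrations `F ⊆ G` containing the null sets, and
a continuous `F`-martingale `M` which is a continuous `G`-semimartingale with decomposition
`M = N + A`, such that almost surely `A` is not absolutely continuous with respect to `[N, N]`:
a continuous local martingale need not be a regular semimartingale in another filtration. -/
theorem result : ∃ (Ω : Type) (mΩ : MeasurableSpace Ω) (P : Measure Ω)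
    (F G : Filtration ℝ≥0 mΩ) (M N A Q : ℝ≥0 → Ω → ℝ),
    IsProbabilityMeasure P ∧ P.IsComplete ∧ HasNull F P ∧ HasNull G P ∧
    (∀ t, F t ≤ G t) ∧
    ContLocMart F P M ∧ Martingale M F P ∧
    Decomp G P M N A ∧ Martingale N G P ∧
    IsQV P N Q ∧
    ∀ᵐ ω ∂P, ¬ AbsContWrt (fun t => A t ω) (fun t => Q t ω) := by
  obtain ⟨Ω, mΩ, P, X, hP, hc, hX⟩ := exists_cbm
  exact ⟨Ω, mΩ, P, FF hX, GG hX, MM X, NN X, AA X, QQ X, hP, hc, cpl_null, cpl_null,
    FF_le_GG hX, M_loc hX, M_mart hX, decomp hX, N_mart hX, isQV hX, not_ac hX⟩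

end Pool.Agent.Results.MP_e3daee_pr.PitmanNotRegular
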